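import Pool.Agent.helper83.ORE.SpecDE

/-! Row DFX of project ORE (MP_561ff4_al): two cases. -/

set_option autoImplicit false
set_option linter.unusedVariables false

namespace Pool.Agent.ORE

open Module Pool.Agent.GS

theorem DFX_card {E : Type} [Field E] [Finite E] (h2 : (2 : E) = 0) : ∃ f : ℕ, Nat.card E = 2 ^ f := by
  have : CharP E 2 := charP2 h2
  have : Fintype E := Fintype.ofFinite E
  obtain ⟨f, -, hf⟩ := FiniteField.card E 2
  exact ⟨f, by rw [Nat.card_eq_fintype_card, hf]⟩

theorem DFX : DFX_stmt := by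
  intro E K M _ _ _ _ _ _ _ _ h2 n hn hodd σ a ρ h hσ hρ hh
  have h2K : (2 : K) = 0 := by
    have := congrArg (algebraMap E K) h2
    rw [map_ofNat, map_zero] at this
    exact this
  have h2M : (2 : M) = 0 := by
    have := congrArg (algebraMap K M) h2K
    rw [map_ofNat, map_zero] at this
    exact this
  have : CharP M 2 := charP2 h2M
  have : Fact (Nat.Prime 2) := ⟨Nat.prime_two⟩
  obtain ⟨f, hf⟩ := DFX_card h2
  have hfE : Fintype E := Fintype.ofFinite E
  have hfK : Fintype K := Fintype.ofFinite K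
  have hE : ∀ x : E, x ^ Nat.card E = x := fun x => by
    rw [Nat.card_eq_fintype_card]
    exact FiniteField.pow_card x
  have hKc : Nat.card K = Nat.card E ^ n := by
    rw [← hn]
    exact Module.natCard_eq_pow_finrank
  have hK : ∀ x : K, x ^ (Nat.card E ^ n) = x := fun x => by
    rw [← hKc, Nat.card_eq_fintype_card]
    exact FiniteField.pow_card x
  have hadd : ∀ x y : M, (x + y) ^ Nat.card E = x ^ Nat.card E + y ^ Nat.card E := fun x y => by
    rw [hf]
    exact add_pow_char_pow x y 2 f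
  have haddn : ∀ (k : ℕ) (x y : M), (x + y) ^ (Nat.card E ^ k) =
      x ^ (Nat.card E ^ k) + y ^ (Nat.card E ^ k) := fun k x y => by
    rw [hf, ← pow_mul]
    exact add_pow_char_pow x y 2 (f * k)
  set s : M := algebraMap K M σ with hs
  set A : M := algebraMap K M a with hA
  have hs0 : s ≠ 0 := (map_ne_zero (algebraMap K M)).2 hσ
  set ω : M := A + h * s⁻¹ with hω
  set R : M := algebraMap K M (algebraMap E K ρ) with hR
  have hRq : R ^ Nat.card E = R := by
    rw [hR, ← map_pow, ← map_pow, hE]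
  have hsn : s ^ (Nat.card E ^ n) = s := by rw [hs, ← map_pow, hK]
  have hAn : A ^ (Nat.card E ^ n) = A := by rw [hA, ← map_pow, hK]
  have hRe : A ^ 2 + A + (s⁻¹) ^ 2 = R := by
    have := congrArg (algebraMap K M) hρ
    rw [map_add, map_add, map_pow, map_pow, map_inv₀] at this
    exact this
  have hωR : ω ^ 2 + ω = R := by
    have e1 : ω ^ 2 + ω = (A ^ 2 + A + (s⁻¹) ^ 2) + 2 * (A * h * s⁻¹) +
        (s⁻¹) ^ 2 * (h ^ 2 + s * h + 1) - 2 * (s⁻¹) ^ 2 + (h * s⁻¹ - s⁻¹ * (s⁻¹ * s) * h) := by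
      rw [hω]
      ring
    rw [e1, hh, h2M, inv_mul_cancel₀ hs0, hRe]
    ring
  have hφ : (ω ^ Nat.card E) ^ 2 + ω ^ Nat.card E = R := by
    have : (ω ^ 2 + ω) ^ Nat.card E = R ^ Nat.card E := by rw [hωR]
    rw [hadd, hRq, ← pow_mul, mul_comm 2, pow_mul] at this
    exact this
  have ht : (ω ^ Nat.card E + ω) * (ω ^ Nat.card E + ω + 1) = 0 := by
    have e1 : (ω ^ Nat.card E + ω) * (ω ^ Nat.card E + ω + 1) =
        ((ω ^ Nat.card E) ^ 2 + ω ^ Nat.card E) + (ω ^ 2 + ω) + 2 * (ω * ω ^ Nat.card E) := by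
      ring
    rw [e1, hφ, hωR, h2M, zero_mul, add_zero, ← two_mul, h2M, zero_mul]
  have hωn : ω ^ (Nat.card E ^ n) = A + h ^ (Nat.card E ^ n) * s⁻¹ := by
    rw [hω, haddn, hAn, mul_pow, inv_pow, hsn]
  rcases mul_eq_zero.1 ht with h0 | h0
  · left
    have h3 : ω ^ Nat.card E = ω := by
      have : ω ^ Nat.card E = (ω ^ Nat.card E + ω) + ω - 2 * ω := by ring
      rw [this, h0, h2M]
      ring
    have h4 : ∀ k : ℕ, ω ^ (Nat.card E ^ k) = ω := by
      intro k
      induction k with
      | zero => rw [pow_zero, pow_one]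
      | succ k ih => rw [pow_succ, pow_mul, ih, h3]
    refine ⟨?_, h3⟩
    have h5 := hωn
    rw [h4 n] at h5
    have h6 : h * s⁻¹ = h ^ (Nat.card E ^ n) * s⁻¹ := add_left_cancel h5
    exact (mul_right_cancel₀ (inv_ne_zero hs0) h6).symm
  · right
    have h3 : ω ^ Nat.card E = ω + 1 := by
      have : ω ^ Nat.card E = (ω ^ Nat.card E + ω + 1) + (ω + 1) - 2 * (ω + 1) := by ring
      rw [this, h0, h2M]
      ring
    have h1k : ∀ k : ℕ, ((k : M)) ^ Nat.card E = (k : M) := by
      intro k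
      induction k with
      | zero =>
        rw [Nat.cast_zero, zero_pow Nat.card_pos.ne']
      | succ k ih =>
        rw [Nat.cast_succ, hadd, ih, one_pow]
    have h4 : ∀ k : ℕ, ω ^ (Nat.card E ^ k) = ω + k := by
      intro k
      induction k with
      | zero => rw [pow_zero, pow_one, Nat.cast_zero, add_zero]
      | succ k ih =>
        rw [pow_succ, pow_mul, ih, hadd, h3, h1k, Nat.cast_succ]
        ring
    have hn1 : (n : M) = 1 := by
      obtain ⟨m, hm⟩ := hodd
      rw [hm]
      push_cast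
      rw [h2M, zero_mul, zero_add]
    refine ⟨?_, h3⟩
    have h5 := hωn
    rw [h4 n, hn1, hω, add_assoc] at h5
    have h6 : h * s⁻¹ + 1 = h ^ (Nat.card E ^ n) * s⁻¹ := add_left_cancel h5
    have h7 : h ^ (Nat.card E ^ n) = h + s := by
      have := congrArg (fun x => x * s) h6
      simp only [add_mul, mul_assoc, inv_mul_cancel₀ hs0, mul_one, one_mul] at this
      exact this.symm
    have h8 : h * (h + s) = 1 := by
      have : h * (h + s) = (h ^ 2 + s * h + 1) + 1 - 2 := by ring
      rw [this, hh, h2M]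
      ring
    rw [h7]
    exact (eq_inv_of_mul_eq_one_right h8)

end Pool.Agent.ORE
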